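import Pool.Agent.U438.Calm.Main
import Pool.Agent.TH829.Peg.Sep

/-! Separating sets of chords with calm arcs. -/

set_option autoImplicit false
open Complex Set Topology Metric

namespace Pool.Agent.U438.Calm

open Pool.Agent.H763R2 Pool.Agent.H763R2.An Pool.Agent.H765R3.Peg Pool.Agent.W675.Peg
open Pool.Agent.H763R2.Dm (NoSq floor_const)
open Pool.Agent.TH829.Peg (crossing_sep passes)

/-- The arc of `c` over `[a, b]`, with the ends `A` and `B`, is calm: it contains no points `P`, `Q`, in the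
order `A, P, Q, B`, such that `|A P|`, `|P Q|` and `|Q B|` are at least `|A B|`. -/
def Calm (c : ℝ → ℂ) (a b : ℝ) : Prop :=
  ∀ s t, a ≤ s → s ≤ t → t ≤ b → ‖c s - c a‖ < ‖c b - c a‖ ∨ ‖c t - c s‖ < ‖c b - c a‖ ∨
    ‖c b - c t‖ < ‖c b - c a‖

/-- `S` meets every path of chords `(x s, y s)`, `0 ≤ s ≤ 1`, that starts with a point of the
curve (`y 0 = x 0`) and ends with the whole curve (`y 1 = x 1 + 1`). -/
def Separates (S : Set (ℝ × ℝ)) : Prop :=
  ∀ x y : ℝ → ℝ, ContinuousOn x (Set.Icc 0 1) → ContinuousOn y (Set.Icc 0 1) →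
    (∀ s ∈ Set.Icc (0 : ℝ) 1, x s ≤ y s ∧ y s ≤ x s + 1) → y 0 = x 0 → y 1 = x 1 + 1 →
    ∃ s ∈ Set.Icc (0 : ℝ) 1, (x s, y s) ∈ S

variable {c : ℝ → ℂ}

/-- separating sets -/
theorem sep (L : Loop c) (J : Inj c) (nosq : NoSq (range c)) {S : Set (ℝ × ℝ)} (hS : IsClosed S)
    (hper : ∀ x y, (x + 1, y + 1) ∈ S ↔ (x, y) ∈ S) (hsep : Separates S)
    (h : ∀ x y, (x, y) ∈ S → x < y ∧ y < x + 1 ∧ Calm c x y ∧ Calm c y (x + 1)) : False := by
  obtain ⟨x, y, t, hx, hy, hm, ht, e1, e2⟩ := crossing_sep L J nosq hS hper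
    (fun x hx => by have := (h _ _ hx).1; exact lt_irrefl _ this)
    (fun x hx => by have := (h _ _ hx).2.1; exact lt_irrefl _ this) hsep (Real.pi / 4)
  obtain ⟨-, -, a1, a2⟩ := h x y hm
  have hg := good L J hx hy a1 (by
    intro s t h1 h2 h3
    have := a2 s t h1 h2 h3
    have e : ‖c (x + 1) - c y‖ = ‖c y - c x‖ := by rw [L.per, norm_sub_rev]
    rwa [e] at this)
  rw [Real.cos_pi_div_four] at e1
  rw [Real.sin_pi_div_four] at e2
  have q1 : 0 < mgc c (DD c x y) := by rw [e1]; positivity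
  have q2 : 0 < mgc c (CC c x y) := by rw [e2]; positivity
  rcases hg with hg | hg <;> linarith

/-- level sets -/
theorem level (L : Loop c) (J : Inj c) (nosq : NoSq (range c)) {F : ℝ × ℝ → ℝ}
    (hF : Continuous F) (hper : ∀ x y, F (x + 1, y + 1) = F (x, y))
    (h1 : ∀ x, F (x, x) < 0) (h2 : ∀ x, 0 < F (x, x + 1))
    (h : ∀ x y, x < y → y < x + 1 → F (x, y) = 0 → Calm c x y ∧ Calm c y (x + 1)) : False := by
  refine sep L J nosq (S := {p | p.1 ≤ p.2 ∧ p.2 ≤ p.1 + 1 ∧ F p = 0}) ?_ ?_ ?_ ?_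
  · exact (isClosed_le continuous_fst continuous_snd).inter
      ((isClosed_le continuous_snd (continuous_fst.add continuous_const)).inter
        (isClosed_eq hF continuous_const))
  · intro x y
    simp only [mem_setOf_eq, hper, add_le_add_iff_right]
  · intro x y hx hy hxy e0 e1
    have cF : ContinuousOn (fun s => F (x s, y s)) (Icc 0 1) := hF.comp_continuousOn (hx.prodMk hy)
    obtain ⟨s, hs, es⟩ := intermediate_value_Icc zero_le_one cF
      (show (0:ℝ) ∈ Icc _ _ by
        simp only [e0, e1]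
        exact ⟨(h1 _).le, (h2 _).le⟩)
    exact ⟨s, hs, (hxy s hs).1, (hxy s hs).2, es⟩
  · rintro x y ⟨a1, a2, a3⟩
    simp only at a1 a2
    have b1 : x < y := by
      rcases a1.lt_or_eq with h' | h'
      · exact h'
      · rw [← h'] at a3
        exact absurd a3 (h1 x).ne
    have b2 : y < x + 1 := by
      rcases a2.lt_or_eq with h' | h'
      · exact h'
      · rw [h'] at a3
        exact absurd a3 (h2 x).ne'
    exact ⟨b1, b2, h x y b1 b2 a3⟩

/-- halves and sixths of the parameter interval -/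
theorem halves (L : Loop c) (J : Inj c) (nosq : NoSq (range c))
    (h : ∀ s t t', s ≤ t → t ≤ t' → t' ≤ s + 1 / 2 → t' - t ≤ 1 / 6 →
      ‖c t' - c t‖ < ‖c (s + 1 / 2) - c s‖) : False := by
  have key : ∀ s, Calm c s (s + 1 / 2) := by
    intro s p q h1 h2 h3
    rcases le_or_gt (p - s) (1 / 6) with h4 | h4
    · exact Or.inl (h s s p le_rfl h1 (h2.trans h3) h4)
    · rcases le_or_gt (q - p) (1 / 6) with h5 | h5
      · exact Or.inr (Or.inl (h s p q h1 h2 h3 h5))
      · exact Or.inr (Or.inr (h s q (s + 1 / 2) (h1.trans h2) h3 le_rfl (by linarith)))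
  refine level L J nosq (F := fun p => p.2 - p.1 - 1 / 2) (by fun_prop)
    (fun x y => by simp only; ring) (fun x => by simp) (fun x => by simp only; linarith) ?_
  intro x y _ _ hF
  simp only at hF
  have hy : y = x + 1 / 2 := by linarith
  subst hy
  refine ⟨key x, ?_⟩
  have := key (x + 1 / 2)
  rwa [show x + 1 / 2 + 1 / 2 = x + 1 by ring] at this

/-- quadrilaterals and chords through a point inside -/
theorem quad (L : Loop c) (J : Inj c) (nosq : NoSq (range c)) {O : ℂ} {n : ℤ} (hn : n ≠ 0)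
    {k : ℝ → ℂ} (hk : Continuous k) (he : ∀ t, exp (k t) = c t - O)
    (hkn : k 1 - k 0 = n * (2 * Real.pi * I)) {r : ℝ} (hr : 0 < r)
    (hO : ∀ x y, O ∈ segment ℝ (c x) (c y) → r ≤ ‖c y - c x‖)
    (hq : ∀ x p q y, x ≤ p → p ≤ q → q ≤ y → y ≤ x + 1 →
      ¬ (r ≤ ‖c p - c x‖ ∧ r ≤ ‖c q - c p‖ ∧ r ≤ ‖c y - c q‖ ∧ r ≤ ‖c y - c x‖)) : False := by
  have cF : Continuous fun p : ℝ × ℝ => ‖c p.2 - c p.1‖ - r := by
    have := L.cont
    fun_prop
  refine sep L J nosq (S := {p | p.1 ≤ p.2 ∧ p.2 ≤ p.1 + 1 ∧ ‖c p.2 - c p.1‖ - r = 0}) ?_ ?_ ?_ ?_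
  · exact (isClosed_le continuous_fst continuous_snd).inter
      ((isClosed_le continuous_snd (continuous_fst.add continuous_const)).inter
        (isClosed_eq cF continuous_const))
  · intro x y
    simp only [mem_setOf_eq, L.per, add_le_add_iff_right]
  · intro x y hx hy hxy e0 e1
    obtain ⟨s, hs, hseg⟩ := passes L hn hk he hkn hx hy e0 e1
    have h1 := hO _ _ hseg
    have cφ : ContinuousOn (fun s => ‖c (y s) - c (x s)‖ - r) (Icc 0 s) := by
      have := cF.comp_continuousOn (hx.prodMk hy)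
      exact this.mono (Icc_subset_Icc_right hs.2)
    have h0 : ‖c (y 0) - c (x 0)‖ - r < 0 := by
      rw [e0, sub_self, norm_zero]; linarith
    obtain ⟨s', hs', e'⟩ := intermediate_value_Icc hs.1 cφ
      (show (0:ℝ) ∈ Icc _ _ from ⟨h0.le, by linarith⟩)
    have hs1 : s' ∈ Icc (0:ℝ) 1 := ⟨hs'.1, hs'.2.trans hs.2⟩
    exact ⟨s', hs1, (hxy _ hs1).1, (hxy _ hs1).2, e'⟩
  · rintro x y ⟨a1, a2, a3⟩
    simp only at a1 a2 a3
    have hr' : ‖c y - c x‖ = r := by linarith
    have b1 : x < y := by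
      rcases a1.lt_or_eq with h' | h'
      · exact h'
      · exfalso; rw [← h', sub_self, norm_zero] at hr'; linarith
    have b2 : y < x + 1 := by
      rcases a2.lt_or_eq with h' | h'
      · exact h'
      · exfalso; rw [h', L.per, sub_self, norm_zero] at hr'; linarith
    refine ⟨b1, b2, ?_, ?_⟩
    · intro s t h1 h2 h3
      rw [hr']
      by_contra hcon
      push Not at hcon
      exact hq x s t y h1 h2 h3 a2 ⟨hcon.1, hcon.2.1, hcon.2.2, hr'.ge⟩
    · intro s t h1 h2 h3
      rw [L.per, norm_sub_rev (c x) (c y), hr']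
      by_contra hcon
      push Not at hcon
      refine hq y s t (x + 1) h1 h2 h3 (by linarith) ⟨hcon.1, hcon.2.1, ?_, ?_⟩
      · rw [L.per]; exact hcon.2.2
      · rw [L.per, norm_sub_rev]; exact hr'.ge

/-- the shortest of three steps -/
noncomputable def mn (c : ℝ → ℂ) (p : ℝ × ℝ) (q : ℝ × ℝ) : ℝ :=
  min ‖c (p.1 + q.1 * (p.2 - p.1)) - c p.1‖
    (min ‖c (p.1 + q.2 * (p.2 - p.1)) - c (p.1 + q.1 * (p.2 - p.1))‖
      ‖c p.2 - c (p.1 + q.2 * (p.2 - p.1))‖)

/-- the parameters of two points in this order -/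
def T : Set (ℝ × ℝ) := {q | 0 ≤ q.1 ∧ q.1 ≤ q.2 ∧ q.2 ≤ 1}

theorem T_compact : IsCompact T := by
  refine (isCompact_Icc (a := ((0, 0) : ℝ × ℝ)) (b := (1, 1))).of_isClosed_subset ?_ ?_
  · exact (isClosed_le continuous_const continuous_fst).inter
      ((isClosed_le continuous_fst continuous_snd).inter
        (isClosed_le continuous_snd continuous_const))
  · rintro ⟨a, b⟩ ⟨h1, h2, h3⟩
    simp only at h1 h2 h3
    exact ⟨⟨h1, h1.trans h2⟩, ⟨h2.trans h3, h3⟩⟩

/-- the largest possible shortest step -/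
noncomputable def W (c : ℝ → ℂ) (p : ℝ × ℝ) : ℝ := sSup (mn c p '' T)

theorem mn_cont (hc : Continuous c) : Continuous fun z : (ℝ × ℝ) × (ℝ × ℝ) => mn c z.1 z.2 := by
  unfold mn
  fun_prop

theorem W_cont (hc : Continuous c) : Continuous (W c) :=
  T_compact.continuous_sSup (f := mn c) (mn_cont hc)

theorem W_lt (hc : Continuous c) (p : ℝ × ℝ) (ℓ : ℝ) : W c p < ℓ ↔ ∀ q ∈ T, mn c p q < ℓ := by
  have cq : Continuous (mn c p) := (mn_cont hc).comp (by fun_prop : Continuous fun q => (p, q))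
  have hne : T.Nonempty := ⟨(0, 0), by simp [T]⟩
  obtain ⟨q, hq, hmax⟩ := T_compact.exists_isMaxOn hne cq.continuousOn
  have e : W c p = mn c p q := by
    apply le_antisymm
    · apply csSup_le (hne.image _)
      rintro _ ⟨q', hq', rfl⟩
      exact hmax hq'
    · exact le_csSup (T_compact.image cq).bddAbove ⟨q, hq, rfl⟩
  rw [e]
  exact ⟨fun h q' hq' => lt_of_le_of_lt (hmax hq') h, fun h => h q hq⟩

theorem calm_iff (hc : Continuous c) {x y : ℝ} (hxy : x < y) :
    Calm c x y ↔ W c (x, y) < ‖c y - c x‖ := by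
  rw [W_lt hc]
  constructor
  · rintro h ⟨a, b⟩ ⟨h1, h2, h3⟩
    simp only at h1 h2 h3
    have hd : 0 < y - x := sub_pos.2 hxy
    have := h (x + a * (y - x)) (x + b * (y - x)) (by nlinarith) (by nlinarith) (by nlinarith)
    unfold mn
    simp only [min_lt_iff]
    exact this
  · intro h s t h1 h2 h3
    have hd : 0 < y - x := sub_pos.2 hxy
    have := h ((s - x) / (y - x), (t - x) / (y - x)) ⟨by
      simp only; exact div_nonneg (by linarith) hd.le, by
      simp only; gcongr, by simp only; rw [div_le_one hd]; linarith⟩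
    unfold mn at this
    simp only [min_lt_iff] at this
    rwa [show x + (s - x) / (y - x) * (y - x) = s by field_simp; ring,
      show x + (t - x) / (y - x) * (y - x) = t by field_simp; ring] at this

theorem W_per (L : Loop c) (x y : ℝ) : W c (x + 1, y + 1) = W c (x, y) := by
  have : mn c (x + 1, y + 1) = mn c (x, y) := by
    funext q
    unfold mn
    simp only
    rw [show x + 1 + q.1 * (y + 1 - (x + 1)) = x + q.1 * (y - x) + 1 by ring,
      show x + 1 + q.2 * (y + 1 - (x + 1)) = x + q.2 * (y - x) + 1 by ring]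
    simp only [L.per]
  unfold W
  rw [this]

theorem W_pos (L : Loop c) (J : Inj c) (x : ℝ) : 0 < W c (x, x + 1) := by
  by_contra hcon
  have h2 : ¬ (∀ q ∈ T, mn c (x, x + 1) q < mn c (x, x + 1) (1 / 3, 2 / 3)) := fun h =>
    lt_irrefl _ (h (1 / 3, 2 / 3) ⟨by norm_num, by norm_num, by norm_num⟩)
  rw [← W_lt L.cont, not_lt] at h2
  have h3 : 0 < mn c (x, x + 1) (1 / 3, 2 / 3) := by
    unfold mn
    simp only
    refine lt_min ?_ (lt_min ?_ ?_)
    · rw [norm_pos_iff, sub_ne_zero]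
      exact (J _ _ (by linarith) (by linarith)).symm
    · rw [norm_pos_iff, sub_ne_zero]
      exact (J _ _ (by linarith) (by linarith)).symm
    · rw [norm_pos_iff, sub_ne_zero]
      exact (J _ _ (by linarith) (by linarith)).symm
  linarith

theorem W_diag (hc : Continuous c) (x : ℝ) : W c (x, x) ≤ 0 := by
  by_contra hcon
  rw [not_le] at hcon
  have : ∀ q ∈ T, mn c (x, x) q < W c (x, x) := by
    intro q _
    have : mn c (x, x) q = 0 := by unfold mn; simp
    rw [this]; exact hcon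
  rw [← W_lt hc] at this
  exact lt_irrefl _ this

/-- for any two points one of the arcs between them is calm -/
theorem twoPoints (L : Loop c) (J : Inj c) (nosq : NoSq (range c))
    (h : ∀ x y, x < y → y < x + 1 → Calm c x y ∨ Calm c y (x + 1)) : False := by
  have hc := L.cont
  have cW := W_cont hc
  refine level L J nosq (F := fun p => W c p - W c (p.2, p.1 + 1))
    (cW.sub (cW.comp (by fun_prop))) (fun x y => ?_) (fun x => ?_) (fun x => ?_) ?_
  · simp only
    rw [W_per L, show x + 1 + 1 = (x + 1) + 1 by ring, W_per L]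
  · simp only
    have h1 := W_pos L J x
    have h2 := W_diag hc x
    linarith
  · simp only
    have h1 := W_pos L J x
    have h2 := W_diag hc (x + 1)
    linarith
  · intro x y hx hy hF
    simp only at hF
    have hl : ‖c (x + 1) - c y‖ = ‖c y - c x‖ := by rw [L.per, norm_sub_rev]
    rw [calm_iff hc hx, calm_iff hc hy, hl]
    have hh := h x y hx hy
    rw [calm_iff hc hx, calm_iff hc hy, hl] at hh
    rcases hh with hh | hh
    · exact ⟨hh, by linarith⟩
    · exact ⟨by linarith, hh⟩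

end Pool.Agent.U438.Calm
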